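import Mathlib
import Pool.Agent.Lib.helper1.Pak
import Pool.Agent.Lib.helper1.Heat

set_option autoImplicit false
set_option linter.unusedSectionVars false

open Finset Filter Topology Matrix

namespace Pool.Agent.Results.MP_d1aba8_pr.NoCutoff

section Defs
variable {S : Type} [Fintype S] [DecidableEq S]

/-- Total variation distance between the time `t` law from `x` of the chain with generator `Q`
and the law `π`. -/
noncomputable def d (Q : Matrix S S ℝ) (π : S → ℝ) (x : S) (t : ℝ) : ℝ :=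
  (1 / 2) * ∑ y : S, |NormedSpace.exp (t • Q) x y - π y|

/-- Mixing time from `x`. -/
noncomputable def tau (Q : Matrix S S ℝ) (π : S → ℝ) (x : S) : ℝ :=
  sInf {t : ℝ | 0 ≤ t ∧ d Q π x t ≤ 1 / 4}

/-- Spectral gap: least real part of a nonzero (complex) eigenvalue of `-Q`. -/
noncomputable def gap (Q : Matrix S S ℝ) : ℝ :=
  sInf {r : ℝ | ∃ l : ℂ, l ≠ 0 ∧ l.re = r ∧
    ∃ f : S → ℂ, f ≠ 0 ∧ (-Q).map (fun a : ℝ => (a : ℂ)) *ᵥ f = l • f}

end Defs

open Pool.Agent.Lib.helper1.Pak Pool.Agent.Lib.helper1.Heat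

section
variable {G : Type} [AddCommGroup G] [Fintype G] [DecidableEq G] {N : ℕ} {Z : Finset G}

lemma d_low (h : Good N Z) (t : ℝ) (ht : 0 ≤ t) :
    99 / 100 - t / (20 * ((N : ℝ) + 1)) ≤
      d (trans Z - 1) (fun _ => 1 / (Fintype.card G : ℝ)) 0 t := by
  obtain ⟨W, h0, h1, h2, h3⟩ := h.nest
  have hN : (0 : ℝ) ≤ N := by positivity
  have ha : (0 : ℝ) ≤ 1 - 1 / (20 * ((N : ℝ) + 1)) := by
    rw [sub_nonneg, div_le_one (by positivity)]; linarith
  have hmono : Monotone W := monotone_nat_of_le_succ h1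
  have hD := fun k => (trans_DS h.symm h.ne).pow k
  have h4 : ∀ k : ℕ, 1 - (k : ℝ) / (20 * ((N : ℝ) + 1)) ≤
      ∑ y ∈ W (20 * N + 19), (trans Z ^ k) 0 y := by
    intro k
    by_cases hk : k ≤ 20 * N + 19
    · have h5 := mass_ge (trans_DS h.symm h.ne) _ ha W 0 h0 h2 k
      have h7 : 1 - (k : ℝ) / (20 * ((N : ℝ) + 1)) ≤ (1 - 1 / (20 * ((N : ℝ) + 1))) ^ k := by
        calc 1 - (k : ℝ) / (20 * ((N : ℝ) + 1)) = 1 + k * (-(1 / (20 * ((N : ℝ) + 1)))) := by
              ring
          _ ≤ (1 + -(1 / (20 * ((N : ℝ) + 1)))) ^ k := one_add_mul_le_pow (by linarith) k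
          _ = _ := by rw [← sub_eq_add_neg]
      exact h7.trans (h5.trans (Finset.sum_le_sum_of_subset_of_nonneg (hmono hk)
        fun y _ _ => (hD k).nn _ _))
    · have h5 : 20 * N + 20 ≤ k := by omega
      have h6 : 20 * (N : ℝ) + 20 ≤ k := by exact_mod_cast h5
      have h7 : 1 ≤ (k : ℝ) / (20 * ((N : ℝ) + 1)) := by
        rw [le_div_iff₀ (by positivity)]; linarith
      have h8 : 0 ≤ ∑ y ∈ W (20 * N + 19), (trans Z ^ k) 0 y :=
        Finset.sum_nonneg fun y _ => (hD k).nn _ _
      linarith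
  have h5 := (hs_one t).sub ((hs_mean t).div_const (20 * ((N : ℝ) + 1)))
  have h6 := hasSum_le (fun k => ?_) h5 (hs_set (trans Z) t 0 (W (20 * N + 19)))
  · have h7 := test_le (fun y => NormedSpace.exp (t • (trans Z - 1)) 0 y)
      (heat_row (trans_DS h.symm h.ne).row t 0) (W (20 * N + 19))
    have h8 := h3 (20 * N + 19) (by omega)
    simp only [d]
    linarith
  · have := mul_le_mul_of_nonneg_left (h4 k) (po_nonneg ht k)
    refine le_trans (le_of_eq ?_) this
    ring

lemma d_up (h : Good N Z) (t : ℝ) (ht : 0 ≤ t) (x : G) :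
    d (trans Z - 1) (fun _ => 1 / (Fintype.card G : ℝ)) x t ≤
      (800 / 781) / (1 + t * (19 / (800 * ((N : ℝ) + 1)))) := by
  have hN : (0 : ℝ) ≤ N := by positivity
  have hc : (0 : ℝ) < Fintype.card G := by exact_mod_cast Fintype.card_pos
  set η : ℝ := 19 / (800 * ((N : ℝ) + 1)) with hη
  have hη0 : 0 ≤ η := by positivity
  have hη1 : η ≤ 19 / 800 := by
    rw [hη, div_le_div_iff₀ (by positivity) (by positivity)]; nlinarith
  have hD := trans_DS h.symm h.ne
  have h1 : ∀ s : ℕ, ∀ y, (1 - (1 - η) ^ (2 * s)) / (Fintype.card G : ℝ) ≤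
      (trans Z ^ (2 * s)) x y := by
    intro s y
    have h2 := doeblin (hD.pow 2) _ h.sq s x y
    rw [← pow_mul] at h2
    refine le_trans ?_ h2
    have h3 : 19 / (400 * ((N : ℝ) + 1)) = 2 * η := by rw [hη]; field_simp; ring
    rw [h3, pow_mul]
    gcongr
    · linarith
    · nlinarith [sq_nonneg η]
  have h2 : ∀ k : ℕ, ∀ y, (1 - (800 / 781) * (1 - η) ^ k) / (Fintype.card G : ℝ) ≤
      (trans Z ^ k) x y := by
    intro k y
    have hp : ∀ m : ℕ, 0 ≤ (1 - η) ^ m := fun m => pow_nonneg (by linarith) m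
    rcases Nat.even_or_odd' k with ⟨s, rfl | rfl⟩
    · refine le_trans ?_ (h1 s y)
      gcongr
      linarith [hp (2 * s)]
    · refine le_trans ?_ (step_ge hD _ _ x (h1 s) y)
      gcongr
      rw [pow_succ]
      nlinarith [hp (2 * s)]
  have h3 : ∀ y, (1 - (800 / 781) * Real.exp (-(t * η))) / (Fintype.card G : ℝ) ≤
      NormedSpace.exp (t • (trans Z - 1)) x y := by
    intro y
    have h4 := ((hs_one t).sub ((hs_geo t (1 - η)).mul_left (800 / 781))).div_const
      (Fintype.card G : ℝ)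
    rw [sub_sub_cancel] at h4
    refine hasSum_le (fun k => ?_) h4 (hs_heat (trans Z) t x y)
    have := mul_le_mul_of_nonneg_left (h2 k y) (po_nonneg ht k)
    refine le_trans (le_of_eq ?_) this
    ring
  have h5 := tv_le_sep _ (heat_row hD.row t x) _ (by positivity) h3
  have h6 : Real.exp (-(t * η)) ≤ 1 / (1 + t * η) := by
    rw [Real.exp_neg, one_div]
    exact inv_anti₀ (by positivity) (by linarith [Real.add_one_le_exp (t * η)])
  simp only [d]
  refine h5.trans ?_
  rw [div_eq_mul_one_div (800 / 781 : ℝ)]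
  gcongr

lemma d_transl (h : Good N Z) (x : G) (t : ℝ) :
    d (trans Z - 1) (fun _ => 1 / (Fintype.card G : ℝ)) x t =
      d (trans Z - 1) (fun _ => 1 / (Fintype.card G : ℝ)) 0 t := by
  simp only [d]
  rw [← Equiv.sum_comp (Equiv.addRight x)]
  have h1 : ∀ k y, (trans Z ^ k) x (y + x) = (trans Z ^ k) 0 y := by
    intro k y
    have := pow_transl (trans Z) (fun a x y => by simp [trans_eq h.symm]) k x 0 y
    rwa [zero_add] at this
  have h2 : ∀ y, NormedSpace.exp (t • (trans Z - 1)) x (y + x) =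
      NormedSpace.exp (t • (trans Z - 1)) 0 y := by
    intro y
    have a := hs_heat (trans Z) t x (y + x)
    simp only [h1] at a
    exact a.unique (hs_heat (trans Z) t 0 y)
  simp only [Equiv.coe_addRight, h2]

lemma gap_ge (h : Good N Z) : 1 / 2 ≤ gap (trans Z - 1) := by
  have hZ : (0 : ℝ) < Z.card := by exact_mod_cast h.ne.card_pos
  have hmul : ∀ (f : G → ℂ) (x : G), ((-(trans Z - 1)).map (fun a : ℝ => (a : ℂ)) *ᵥ f) x =
      f x - ∑ y, (trans Z x y : ℂ) * f y := by
    intro f x
    simp [Matrix.mulVec, dotProduct, Matrix.one_apply, sub_mul, Finset.sum_sub_distrib,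
      apply_ite (fun a : ℝ => (a : ℂ))]
  refine le_csInf ?_ ?_
  · have : Nontrivial G := Fintype.one_lt_card_iff_nontrivial.1 (by have := h.big; omega)
    obtain ⟨a, ha⟩ := exists_ne (0 : G)
    obtain ⟨χ, hχ⟩ := AddChar.exists_apply_ne_zero.2 ha
    have hχ0 : χ ≠ 0 := by rintro rfl; simp at hχ
    have h1 := h.chr χ hχ0
    refine ⟨_, 1 - (∑ z ∈ Z, χ z) / Z.card, ?_, rfl, fun x => χ x, ?_, ?_⟩
    · intro h0
      have h2 := congrArg Complex.re h0
      simp only [Complex.sub_re, Complex.one_re, Complex.div_natCast_re, Complex.zero_re] at h2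
      have : (∑ z ∈ Z, χ z).re / Z.card ≤ 1 / 2 := by rw [div_le_iff₀ hZ]; exact h1
      linarith
    · intro h0
      have := congrFun h0 0
      simp at this
    · funext x
      rw [hmul]
      have h3 : ∑ y, (trans Z x y : ℂ) * χ y = (∑ z ∈ Z, χ (x + z)) / Z.card := by
        apply Complex.ext
        · simp only [Complex.re_sum, Complex.re_ofReal_mul, Complex.div_natCast_re]
          exact sum_trans_mul h.symm x fun y => (χ y).re
        · simp only [Complex.im_sum, Complex.im_ofReal_mul, Complex.div_natCast_im]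
          exact sum_trans_mul h.symm x fun y => (χ y).im
      rw [h3]
      simp only [AddChar.map_add_eq_mul, ← Finset.mul_sum, Pi.smul_apply, smul_eq_mul]
      ring
  · rintro r ⟨l, hl, rfl, f, hf, he⟩
    have h1 : ∀ x, ∑ y, trans Z x y * (f y).re = (1 - l.re) * (f x).re + l.im * (f x).im := by
      intro x
      have := congrArg Complex.re ((hmul f x).symm.trans (congrFun he x))
      simp only [Complex.sub_re, Complex.re_sum, Complex.ofReal_re, Complex.ofReal_im,
        Pi.smul_apply, smul_eq_mul, Complex.mul_re, zero_mul, sub_zero] at this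
      linarith
    have h2 : ∀ x, ∑ y, trans Z x y * (f y).im = (1 - l.re) * (f x).im - l.im * (f x).re := by
      intro x
      have := congrArg Complex.im ((hmul f x).symm.trans (congrFun he x))
      simp only [Complex.sub_im, Complex.im_sum, Complex.ofReal_re, Complex.ofReal_im,
        Pi.smul_apply, smul_eq_mul, Complex.mul_im, zero_mul, add_zero] at this
      linarith
    have h3 : ∑ x, (f x).im * ∑ y, trans Z x y * (f y).re =
        ∑ x, (f x).re * ∑ y, trans Z x y * (f y).im := by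
      simp only [Finset.mul_sum]
      rw [Finset.sum_comm]
      refine Finset.sum_congr rfl fun x _ => Finset.sum_congr rfl fun y _ => ?_
      rw [trans_symm Z y x]; ring
    simp only [h1, h2] at h3
    have h4 : l.im * ∑ x, Complex.normSq (f x) = 0 := by
      have h5 := sub_eq_zero.2 h3
      rw [← Finset.sum_sub_distrib] at h5
      rw [← h5, Finset.mul_sum]
      refine Finset.sum_congr rfl fun x _ => ?_
      rw [Complex.normSq_apply]; ring
    have h5 : l.im = 0 := by
      refine (mul_eq_zero.1 h4).resolve_right fun h6 => hf ?_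
      funext x
      have := (Finset.sum_eq_zero_iff_of_nonneg fun x _ => Complex.normSq_nonneg (f x)).1 h6 x
        (mem_univ x)
      exact Complex.normSq_eq_zero.1 this
    have h6 : 1 - l.re ≠ 1 := fun h7 => hl (Complex.ext (by simp; linarith) (by simp [h5]))
    by_cases h7 : (fun x => (f x).re) = 0
    · have h8 : (fun x => (f x).im) ≠ 0 := fun h8 => hf (funext fun x =>
        Complex.ext (congrFun h7 x) (congrFun h8 x))
      have := h.eig _ h8 (1 - l.re) h6 (funext fun x => by
        simpa [Matrix.mulVec, dotProduct, h5] using h2 x)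
      linarith
    · have := h.eig _ h7 (1 - l.re) h6 (funext fun x => by
        simpa [Matrix.mulVec, dotProduct, h5] using h1 x)
      linarith

lemma tau_ge (h : Good N Z) :
    74 / 5 * ((N : ℝ) + 1) ≤ tau (trans Z - 1) (fun _ => 1 / (Fintype.card G : ℝ)) 0 := by
  have hN : (0 : ℝ) ≤ N := by positivity
  refine le_csInf ⟨400 * ((N : ℝ) + 1), by positivity, ?_⟩ ?_
  · refine (d_up h _ (by positivity) 0).trans ?_
    rw [show 400 * ((N : ℝ) + 1) * (19 / (800 * ((N : ℝ) + 1))) = 19 / 2 by field_simp; ring]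
    norm_num
  · rintro t ⟨ht, hd⟩
    have h1 := d_low h t ht
    have h2 : 74 / 100 ≤ t / (20 * ((N : ℝ) + 1)) := by linarith
    rw [le_div_iff₀ (by positivity)] at h2
    linarith

lemma d_small (h : Good N Z) (x : G) :
    d (trans Z - 1) (fun _ => 1 / (Fintype.card G : ℝ)) x
      ((1 - 1 / 10) * tau (trans Z - 1) (fun _ => 1 / (Fintype.card G : ℝ)) 0) ≤ 1 - 1 / 10 := by
  have hN : (0 : ℝ) ≤ N := by positivity
  have h1 := tau_ge h
  set τ := tau (trans Z - 1) (fun _ => 1 / (Fintype.card G : ℝ)) 0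
  have h0 : 0 ≤ (1 - 1 / 10) * τ := by nlinarith
  refine (d_up h _ h0 x).trans ?_
  have h2 : 3 / 10 ≤ (1 - 1 / 10) * τ * (19 / (800 * ((N : ℝ) + 1))) := by
    rw [← mul_div_assoc, le_div_iff₀ (by positivity)]; nlinarith
  rw [div_le_iff₀ (by linarith)]
  linarith

lemma irred (h : Good N Z) (x y : G) :
    Relation.ReflTransGen (fun a b => a ≠ b ∧ 0 < (trans Z - 1) a b) x y := by
  have hZ : (0 : ℝ) < Z.card := by exact_mod_cast h.ne.card_pos
  have h1 : ∀ a z, z ∈ Z → a ≠ a + z ∧ 0 < (trans Z - 1) a (a + z) := by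
    intro a z hz
    have h2 : a ≠ a + z := fun h3 => h.zero (by rwa [left_eq_add.1 h3] at hz)
    refine ⟨h2, ?_⟩
    simp only [Matrix.sub_apply, trans_eq h.symm, add_sub_cancel_left, hz, if_true,
      Matrix.one_apply_ne h2, sub_zero]
    positivity
  obtain ⟨a, ha, b, hb, hab⟩ := h.two_step (y - x)
  have h3 : y = x + a + b := by rw [add_assoc, ← hab]; abel
  rw [h3]
  exact Relation.ReflTransGen.tail (b := x + a) (Relation.ReflTransGen.single (h1 x a ha))
    (h1 (x + a) b hb)

end

open Classical in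
theorem result :
    ∃ (S : ℕ → Type) (_ : ∀ n, Fintype (S n)) (_ : ∀ n, DecidableEq (S n))
      (Q : ∀ n, Matrix (S n) (S n) ℝ) (π : ∀ n, S n → ℝ) (τ : ℕ → ℝ),
      (∀ n x y, x ≠ y → 0 ≤ Q n x y) ∧ (∀ n x, ∑ y, Q n x y = 0) ∧
      (∀ n x y, Relation.ReflTransGen (fun a b => a ≠ b ∧ 0 < Q n a b) x y) ∧
      (∀ n x, 0 < π n x) ∧ (∀ n, ∑ x, π n x = 1) ∧ (∀ n y, ∑ x, π n x * Q n x y = 0) ∧
      (∀ n x, tau (Q n) (π n) x = τ n) ∧
      Tendsto (fun n => τ n / (1 / gap (Q n))) atTop atTop ∧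
      ∃ ε ∈ Set.Ioo (0 : ℝ) 1, ¬ Tendsto
        (fun n => ∑ x ∈ univ.filter (fun x => 1 - ε < d (Q n) (π n) x ((1 - ε) * τ n)), π n x)
        atTop (𝓝 1) := by
  choose G i1 i2 i3 Z h using package
  have hc : ∀ n, (0 : ℝ) < Fintype.card (G n) := fun n => by exact_mod_cast Fintype.card_pos
  refine ⟨G, i2, i3, fun n => trans (Z n) - 1, fun n _ => 1 / (Fintype.card (G n) : ℝ),
    fun n => tau (trans (Z n) - 1) (fun _ => 1 / (Fintype.card (G n) : ℝ)) 0,
    ?_, ?_, fun n => irred (h n), fun n _ => by have := hc n; positivity, ?_, ?_, ?_, ?_,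
    1 / 10, ⟨by norm_num, by norm_num⟩, ?_⟩
  · intro n x y hxy
    simpa [Matrix.one_apply_ne hxy] using trans_nonneg (Z n) x y
  · intro n x
    simp [Finset.sum_sub_distrib, (trans_DS (h n).symm (h n).ne).row, Matrix.one_apply]
  · intro n
    have := hc n
    simp only [sum_const, card_univ, nsmul_eq_mul]; field_simp
  · intro n y
    rw [← Finset.mul_sum]
    simp [Finset.sum_sub_distrib, (trans_DS (h n).symm (h n).ne).col, Matrix.one_apply]
  · intro n x
    simp only [tau, d_transl (h n) x]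
  · refine tendsto_atTop_mono (fun n => ?_) tendsto_natCast_atTop_atTop
    have h1 := tau_ge (h n)
    have h2 := gap_ge (h n)
    have hN : (0 : ℝ) ≤ n := by positivity
    rw [div_div_eq_mul_div, div_one]
    nlinarith
  · intro hc
    have h0 : ∀ n, ∑ x ∈ univ.filter (fun x => 1 - (1 / 10 : ℝ) <
        d (trans (Z n) - 1) (fun _ => 1 / (Fintype.card (G n) : ℝ)) x
          ((1 - 1 / 10) * tau (trans (Z n) - 1) (fun _ => 1 / (Fintype.card (G n) : ℝ)) 0)),
        (1 / (Fintype.card (G n) : ℝ)) = 0 := by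
      intro n
      rw [Finset.filter_false_of_mem fun x _ => not_lt.2 (d_small (h n) x)]
      simp
    simp only [h0] at hc
    have := tendsto_nhds_unique hc tendsto_const_nhds
    norm_num at this

end Pool.Agent.Results.MP_d1aba8_pr.NoCutoff
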